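import Mathlib
import Pool.Agent.H892.ZL.Stm

set_option autoImplicit false

namespace Pool.Agent.H638.ZL

open MvPolynomial Matrix
open Pool.Agent.H892.ZL

/-- restriction to a fixed `x` -/
noncomputable def psi (x : Fin 3 → ℂ) : SA →ₐ[ℂ] MvPolynomial (Fin 3) ℂ :=
  aeval (Sum.elim (fun i => C (x i)) (fun i => X i))

lemma eval_psi (x y : Fin 3 → ℂ) (f : SA) : eval y (psi x f) = eval (pt x y) f := by
  have h : (aeval y : MvPolynomial (Fin 3) ℂ →ₐ[ℂ] ℂ).comp (psi x) =
      (aeval (pt x y) : SA →ₐ[ℂ] ℂ) := by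
    ext i
    rcases i with i | i
    · simp [psi, pt]
    · simp [psi, pt]
  have h2 := DFunLike.congr_fun h f
  simpa [AlgHom.comp_apply, coe_aeval_eq_eval] using h2

lemma psi_hom (x : Fin 3 → ℂ) (f : SA) (n : ℕ) (hf : IsWeightedHomogeneous wty f n) :
    (psi x f).IsHomogeneous n := by
  rw [f.as_sum, map_sum]
  refine IsHomogeneous.sum _ _ _ fun m hm => ?_
  have hw : Finsupp.weight wty m = n := hf (mem_support_iff.1 hm)
  unfold psi
  rw [aeval_monomial]
  have h1 : (m.prod fun i k => (Sum.elim (fun i => C (x i)) (fun i => X i) :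
      Fin 3 ⊕ Fin 3 → MvPolynomial (Fin 3) ℂ) i ^ k).IsHomogeneous n := by
    rw [Finsupp.prod_fintype _ _ (fun i => pow_zero _), ← hw, Finsupp.weight_apply,
      Finsupp.sum_fintype _ _ (fun i => by simp)]
    refine IsHomogeneous.prod _ _ _ fun i _ => ?_
    rcases i with i | i
    · have := ((isHomogeneous_C (σ := Fin 3) (x i)).pow (m (Sum.inl i)))
      simpa [wty] using this
    · have := ((isHomogeneous_X ℂ i).pow (m (Sum.inr i)))
      simpa [wty] using this
  have h2 := h1.C_mul (coeff m f)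
  simpa [algebraMap_eq] using h2

lemma eval_smul_hom (h : MvPolynomial (Fin 3) ℂ) (n : ℕ) (hh : h.IsHomogeneous n) (c : ℂ)
    (y : Fin 3 → ℂ) : eval (c • y) h = c ^ n * eval y h := by
  rw [eval_eq', eval_eq', Finset.mul_sum]
  refine Finset.sum_congr rfl fun d hd => ?_
  have h1 : ∑ i, d i = n := by
    have := hh (mem_support_iff.1 hd)
    rw [← this, Finsupp.weight_apply, Finsupp.sum_fintype _ _ (fun i => by simp)]
    simp
  have h2 : ∏ i, (c • y) i ^ d i = c ^ n * ∏ i, y i ^ d i := by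
    rw [← h1, ← Finset.prod_pow_eq_pow_sum, ← Finset.prod_mul_distrib]
    refine Finset.prod_congr rfl fun i _ => ?_
    rw [Pi.smul_apply, smul_eq_mul, mul_pow]
  rw [h2]; ring

/-- a linear form in three variables is linear -/
lemma eval_lin (h : MvPolynomial (Fin 3) ℂ) (hh : h.IsHomogeneous 1) :
    ∃ c : Fin 3 → ℂ, ∀ y, eval y h = ∑ i, c i * y i := by
  have h1 : h ∈ homogeneousSubmodule (Fin 3) ℂ 1 := hh
  rw [homogeneousSubmodule_one_eq_span_X, Submodule.mem_span_range_iff_exists_fun] at h1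
  obtain ⟨c, hc⟩ := h1
  refine ⟨c, fun y => ?_⟩
  rw [← hc, map_sum]
  refine Finset.sum_congr rfl fun i _ => ?_
  rw [smul_eval, eval_X]

lemma exists_pair (c : Fin 3 → ℂ) : ∃ a b : Fin 3 → ℂ, LinearIndependent ℂ ![a, b] ∧
    ∑ i, c i * a i = 0 ∧ ∑ i, c i * b i = 0 := by
  let F : (Fin 3 → ℂ) →ₗ[ℂ] ℂ := Fintype.linearCombination ℂ c |>.comp LinearMap.id
  have hF : ∀ y, F y = ∑ i, c i * y i := by
    intro y
    simp [F, Fintype.linearCombination_apply, mul_comm]
  have h1 : 2 ≤ Module.finrank ℂ (LinearMap.ker F) := by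
    have h2 := LinearMap.finrank_range_add_finrank_ker F
    have h3 : Module.finrank ℂ (LinearMap.range F) ≤ 1 := by
      refine (Submodule.finrank_le _).trans ?_
      simp
    have h4 : Module.finrank ℂ (Fin 3 → ℂ) = 3 := by simp
    omega
  obtain ⟨v, hv⟩ := exists_linearIndependent_of_le_finrank h1
  have h5 : LinearIndependent ℂ (fun i => (v i : Fin 3 → ℂ)) :=
    hv.map' (LinearMap.ker F).subtype (Submodule.ker_subtype _)
  refine ⟨v 0, v 1, ?_, ?_, ?_⟩
  · have e : (![(v 0 : Fin 3 → ℂ), v 1] : Fin 2 → Fin 3 → ℂ) = fun i => (v i : Fin 3 → ℂ) := by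
      funext i; fin_cases i <;> rfl
    rw [e]; exact h5
  · rw [← hF]; exact (v 0).2
  · rw [← hF]; exact (v 1).2

/-- a quadratic form vanishes at a nonzero vector of a plane -/
lemma exists_zero (g : MvPolynomial (Fin 3) ℂ) (hg : g.IsHomogeneous 2) (a b : Fin 3 → ℂ)
    (hab : LinearIndependent ℂ ![a, b]) :
    ∃ y : Fin 3 → ℂ, y ≠ 0 ∧ (∃ s t : ℂ, y = s • a + t • b) ∧ eval y g = 0 := by
  have hb0 : b ≠ 0 := hab.ne_zero 1
  by_cases hb : eval b g = 0
  · exact ⟨b, hb0, ⟨0, 1, by simp⟩, hb⟩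
  -- the restriction to the line
  let P : ∀ _ _ : Fin 3 → ℂ, Polynomial ℂ := fun u w =>
    aeval (fun i => Polynomial.C (u i) + Polynomial.C (w i) * Polynomial.X) g
  have hP : ∀ u w t, (P u w).eval t = eval (u + t • w) g := by
    intro u w t
    have h : ((Polynomial.aeval t : Polynomial ℂ →ₐ[ℂ] ℂ).comp
        (aeval (fun i => Polynomial.C (u i) + Polynomial.C (w i) * Polynomial.X) :
          MvPolynomial (Fin 3) ℂ →ₐ[ℂ] Polynomial ℂ)) =
        (aeval (u + t • w) : MvPolynomial (Fin 3) ℂ →ₐ[ℂ] ℂ) := by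
      ext i
      rw [AlgHom.comp_apply, aeval_X, aeval_X]
      simp only [map_add, map_mul, Polynomial.aeval_C, Polynomial.aeval_X, Pi.add_apply,
        Pi.smul_apply, smul_eq_mul, Algebra.algebraMap_self, RingHom.id_apply]
      ring
    have h2 := DFunLike.congr_fun h g
    simpa [AlgHom.comp_apply, coe_aeval_eq_eval, P, Polynomial.coe_aeval_eq_eval] using h2
  by_cases hd : (P a b).degree = 0
  · exfalso
    obtain ⟨c, hc⟩ : ∃ c, P a b = Polynomial.C c := ⟨_, Polynomial.eq_C_of_degree_eq_zero hd⟩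
    have h1 : ∀ t : ℂ, eval (a + t • b) g = c := by
      intro t; rw [← hP, hc, Polynomial.eval_C]
    have h2 : P b a - Polynomial.C c * Polynomial.X ^ 2 = 0 := by
      refine Polynomial.eq_zero_of_infinite_isRoot _ ?_
      refine Set.Infinite.mono (s := {0}ᶜ) ?_ (Set.Finite.infinite_compl (Set.finite_singleton 0))
      intro u hu
      have hu0 : u ≠ 0 := hu
      show Polynomial.eval u _ = 0
      rw [Polynomial.eval_sub, hP, Polynomial.eval_mul, Polynomial.eval_C, Polynomial.eval_pow,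
        Polynomial.eval_X]
      have e : b + u • a = u • (a + u⁻¹ • b) := by
        rw [smul_add, smul_smul, mul_inv_cancel₀ hu0, one_smul, add_comm]
      rw [e, eval_smul_hom g 2 hg, h1]
      ring
    have h3 := congrArg (Polynomial.eval 0) h2
    rw [Polynomial.eval_sub, hP, Polynomial.eval_zero] at h3
    simp at h3
    exact hb h3
  · obtain ⟨t, ht⟩ := IsAlgClosed.exists_root (P a b) hd
    have ht' : eval (a + t • b) g = 0 := by rw [← hP]; exact ht
    refine ⟨a + t • b, ?_, ⟨1, t, by simp⟩, ht'⟩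
    intro h0
    have h4 := Fintype.linearIndependent_iff.1 hab ![1, t] (by
      rw [Fin.sum_univ_two]
      simpa using h0) 0
    simp at h4

lemma aff_val (x y : Fin 3 → ℂ) : aff x y 2 = - y 0 ∧ aff x y 4 = - y 1 ∧ aff x y 5 = - y 2 := by
  refine ⟨?_, ?_, ?_⟩ <;> simp [aff, plu]

lemma eval_gp (x y : Fin 3 → ℂ) (I : Fin 6) : eval (pt x y) (gp I) = aff x y I := by
  fin_cases I <;> simp [gp, aff, plu, pt]

lemma eval_kap (K : MvPolynomial (Fin 6) ℂ) (x y : Fin 3 → ℂ) :
    eval (pt x y) (kap K) = eval (aff x y) K := by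
  have h : (aeval (pt x y) : SA →ₐ[ℂ] ℂ).comp (aeval gp : MvPolynomial (Fin 6) ℂ →ₐ[ℂ] SA) =
      (aeval (aff x y) : MvPolynomial (Fin 6) ℂ →ₐ[ℂ] ℂ) := by
    ext I
    rw [AlgHom.comp_apply, aeval_X, aeval_X]
    have := eval_gp x y I
    simpa [coe_aeval_eq_eval] using this
  have h2 := DFunLike.congr_fun h K
  simpa [AlgHom.comp_apply, coe_aeval_eq_eval, kap] using h2

lemma gradG (v : Fin 6 → ℂ) (J : Fin 6) : grad Gp v J = Bf v (Pi.single J 1) := by
  fin_cases J <;> simp [grad, Gp, Bf, Pi.single_apply, pderiv_X, Pi.single]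

lemma bf_expand (v u : Fin 6 → ℂ) : Bf v u = ∑ J, Bf v (Pi.single J 1) * u J := by
  simp [Fin.sum_univ_six, Bf, Pi.single]
  ring

lemma eval_Gp_aff (x y : Fin 3 → ℂ) : eval (aff x y) Gp = 0 := by
  simp [Gp, aff, plu]
  ring

theorem t_IRR1 (h1 : S_SX) (h2 : S_TANA) (h3 : S_D6) (h4 : S_CHAIN) : S_IRR1 := by
  intro K hK f g hf hg hfg
  obtain ⟨s, hs0, hs⟩ := h1 K hK
  obtain ⟨x, hx⟩ : ∃ x, eval x s ≠ 0 := by
    by_contra hcon
    push Not at hcon
    exact hs0 (MvPolynomial.funext fun x => by rw [hcon x, map_zero])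
  obtain ⟨c, hc⟩ := eval_lin (psi x f) (psi_hom x f 1 hf)
  obtain ⟨a, b, hab, ha, hb⟩ := exists_pair c
  obtain ⟨y, hy0, ⟨r, t, hyrt⟩, hgy⟩ := exists_zero (psi x g) (psi_hom x g 2 hg) a b hab
  have hfy : eval (pt x y) f = 0 := by
    rw [← eval_psi, hc, hyrt]
    have : ∑ i, c i * (r • a + t • b) i = r * ∑ i, c i * a i + t * ∑ i, c i * b i := by
      rw [Finset.mul_sum, Finset.mul_sum, ← Finset.sum_add_distrib]
      refine Finset.sum_congr rfl fun i _ => ?_
      simp only [Pi.add_apply, Pi.smul_apply, smul_eq_mul]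
      ring
    rw [this, ha, hb]; simp
  rw [eval_psi] at hgy
  have hk0 : eval (pt x y) (kap K) = 0 := by rw [hfg, map_mul, hfy, zero_mul]
  have hpd : ∀ i, eval (pt x y) (pderiv i (kap K)) = 0 := by
    intro i
    rw [hfg, Derivation.leibniz, map_add, smul_eq_mul, smul_eq_mul, map_mul, map_mul, hfy, hgy]
    ring
  set v := aff x y with hv
  have hv0 : v ≠ 0 := by
    intro h0
    obtain ⟨e0, e1, e2⟩ := aff_val x y
    rw [← hv, h0] at e0 e1 e2
    apply hy0
    funext i
    fin_cases i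
    · simpa using e0.symm
    · simpa using e1.symm
    · simpa using e2.symm
  have hcone : v ∈ Cone K := ⟨hv0, eval_Gp_aff x y, by rw [hv, ← eval_kap]; exact hk0⟩
  have hch : ∀ ξ η : Fin 3 → ℂ, ∑ I, grad K v I * daff x y ξ η I = 0 := by
    intro ξ η
    rw [hv, ← h4 ℂ K x y ξ η]
    have e : ∀ i, aeval (Sum.elim x y) (pderiv i (kap K)) = 0 := fun i => hpd i
    simp [e]
  have hker : ∀ u : Fin 6 → ℂ, Bf v u = 0 → ∑ I, grad K v I * u I = 0 := by
    intro u hu
    obtain ⟨ξ, η, rfl⟩ := h2 ℂ x y hy0 u hu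
    exact hch ξ η
  -- the gradient of K is a multiple of the gradient of the Pluecker quadric
  obtain ⟨u0, hu0⟩ : ∃ u0 : Fin 6 → ℂ, Bf v u0 ≠ 0 := by
    by_contra hcon
    push Not at hcon
    apply hv0
    funext i
    fin_cases i
    · have := hcon (Pi.single 5 1); simpa [Bf, Pi.single] using this
    · have := hcon (Pi.single 4 1); simpa [Bf, Pi.single] using this
    · have := hcon (Pi.single 3 1); simpa [Bf, Pi.single] using this
    · have := hcon (Pi.single 2 1); simpa [Bf, Pi.single] using this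
    · have := hcon (Pi.single 1 1); simpa [Bf, Pi.single] using this
    · have := hcon (Pi.single 0 1); simpa [Bf, Pi.single] using this
  set T : (Fin 6 → ℂ) → ℂ := fun u => ∑ I, grad K v I * u I with hT
  have hTlin : ∀ (u w : Fin 6 → ℂ) (l : ℂ), T (u - l • w) = T u - l * T w := by
    intro u w l
    simp only [hT, Finset.mul_sum, ← Finset.sum_sub_distrib]
    refine Finset.sum_congr rfl fun i _ => ?_
    simp only [Pi.sub_apply, Pi.smul_apply, smul_eq_mul]
    ring
  have hBlin : ∀ (u w : Fin 6 → ℂ) (l : ℂ), Bf v (u - l • w) = Bf v u - l * Bf v w := by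
    intro u w l
    simp only [Bf, Pi.sub_apply, Pi.smul_apply, smul_eq_mul]
    ring
  have hmul : ∀ u, T u = T u0 / Bf v u0 * Bf v u := by
    intro u
    have e1 : Bf v (u - (Bf v u / Bf v u0) • u0) = 0 := by
      rw [hBlin, div_mul_cancel₀ _ hu0, sub_self]
    have e2 : T (u - (Bf v u / Bf v u0) • u0) = 0 := hker _ e1
    rw [hTlin] at e2
    have e3 : T u = Bf v u / Bf v u0 * T u0 := by linear_combination e2
    rw [e3]; ring
  have hTJ : ∀ J, T (Pi.single J 1) = grad K v J := by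
    intro J
    simp only [hT]
    rw [Finset.sum_eq_single J]
    · simp
    · intro I _ hI
      rw [Pi.single_eq_of_ne hI, mul_zero]
    · intro h; exact absurd (Finset.mem_univ _) h
  have hns : ¬ SmoothAt K v := by
    intro hsm
    have h5 := (h3 ℂ (YY K v)).1 hsm (-(T u0 / Bf v u0)) 1 (by
      intro J
      show -(T u0 / Bf v u0) * grad Gp v J + 1 * grad K v J = 0
      rw [gradG, ← hTJ, hmul (Pi.single J 1)]
      ring)
    exact one_ne_zero h5.2
  exact hx (hs x y hy0 hcone hns)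

end Pool.Agent.H638.ZL
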